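import Mathlib
import Pool.Agent.R29.Nbhd

set_option autoImplicit false

/-!
# Tutte polynomials of vertex contractions at a neighbourhood (MP_8e541a_co)

Let `G` be a connected graph with at least two vertices and let `s` be a vertex with set of
neighbours `N`. The Tutte polynomial of `G` lies in the ideal generated by the Tutte polynomials of
the graphs `G_W` for `∅ ≠ W ⊆ N`, over every commutative ring of coefficients.

Proof. For a set `F` of edges and a set `U ⊆ N` let `T'(F, U)` be the Tutte polynomial of the graph
with edge set `F` in which `U ∪ {s}` is identified, times `(x - 1)^(c - 1)`, where `c` is the number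
of its components. For an edge `e ∉ F` from `s` to `a ∉ U` one has
`T'(F + e, U) = T'(F, U) + T'(F, U + a)`; for edges with identified ends `T'(F + e, U) = y T'(F, U)`.
By downward induction on `U ≠ ∅` it follows that `T'(F, U)` is in the ideal for all `F` which
contain all edges outside `s`. If `F` is the set of all these edges then
`T'(F, ∅) = (x - 1) T'(F, {a})` for every `a ∈ N`, and the edges at `s` can be added.
-/

namespace Pool.Agent.Results.MP_8e541a_co.IdealMembership

open Finset Pool.Agent.R29

variable {V E : Type}

/-- The simple graph on `V` in which two different vertices are adjacent if some edge in `A` of the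
multigraph (given by the ends `ends e = (u, v)` of its edges `e`) joins them. -/
def under (ends : E → V × V) (A : Finset E) : SimpleGraph V :=
  SimpleGraph.fromRel fun u v => ∃ e ∈ A, ends e = (u, v)

/-- `k(A)`: the number of the connected components of the spanning subgraph `(V, A)`. -/
noncomputable def comps (ends : E → V × V) (A : Finset E) : ℕ :=
  Nat.card (under ends A).ConnectedComponent

/-- The rank `r(A) = |V| - k(A)`. -/
noncomputable def rank (ends : E → V × V) (A : Finset E) : ℕ := Nat.card V - comps ends A

/-- The Tutte polynomial `∑_A (x-1)^(r(E)-r(A)) (y-1)^(|A|-r(A))` with `x = X 0`, `y = X 1` and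
with coefficients in `R`. -/
noncomputable def tutte (R : Type) [CommRing R] [Fintype E] (ends : E → V × V) :
    MvPolynomial (Fin 2) R :=
  ∑ A : Finset E, (MvPolynomial.X 0 - 1) ^ (rank ends univ - rank ends A) *
    (MvPolynomial.X 1 - 1) ^ (A.card - rank ends A)

/-- The vertices after the identification of all vertices in `U`. -/
abbrev Contr (U : Set V) : Type := Quot fun u v : V => u ∈ U ∧ v ∈ U

/-- The vertex contraction `G_{/U}`: every edge keeps its ends, read through the identification. -/
def contractVerts (ends : E → V × V) (U : Set V) (e : E) : Contr U × Contr U :=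
  (Quot.mk _ (ends e).1, Quot.mk _ (ends e).2)

/-- The graph without its loops. -/
def deleteLoops (ends : E → V × V) (e : {e : E // (ends e).1 ≠ (ends e).2}) : V × V := ends e.1

/-- The set of the neighbours of `s`, excluding `s` itself. -/
def nbrs (ends : E → V × V) (s : V) : Set V :=
  {v | v ≠ s ∧ ∃ e, ends e = (s, v) ∨ ends e = (v, s)}

/-- The graph `G_W`: the vertex contraction at `W ∪ {s}` with all loops deleted. -/
def GW (ends : E → V × V) (s : V) (W : Set V) :
    {e : E // (contractVerts ends (insert s W) e).1 ≠ (contractVerts ends (insert s W) e).2} →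
      Contr (insert s W) × Contr (insert s W) :=
  deleteLoops (contractVerts ends (insert s W))

theorem under_eq (ends : E → V × V) (A : Finset E) : under ends A = Comp.under ends A := rfl

theorem comps_eq (ends : E → V × V) (A : Finset E) : comps ends A = Comp.comps ends A := rfl

theorem mk_eq_iff {U : Set V} (a b : V) :
    (Quot.mk _ a : Contr U) = Quot.mk _ b ↔ a = b ∨ (a ∈ U ∧ b ∈ U) := by
  constructor
  · intro h
    let P : Contr U → Prop := Quot.lift (fun b => (a = b ∨ (a ∈ U ∧ b ∈ U) : Prop)) (by
      rintro x y ⟨hx, hy⟩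
      apply propext
      constructor
      · rintro (rfl | ⟨h1, _⟩)
        · exact Or.inr ⟨hx, hy⟩
        · exact Or.inr ⟨h1, hy⟩
      · rintro (rfl | ⟨h1, _⟩)
        · exact Or.inr ⟨hy, hx⟩
        · exact Or.inr ⟨h1, hx⟩)
    have h1 : P (Quot.mk _ a) := Or.inl rfl
    rw [h] at h1
    exact h1
  · rintro (rfl | h)
    · rfl
    · exact Quot.sound h

/-- components after the identification -/
theorem comps_contr [Finite V] [DecidableEq V] [DecidableEq E] (ends : E → V × V) (s : V)
    (W : Finset V) {E' : Type} (ends' : E' → Contr (insert s (W : Set V)) ×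
      Contr (insert s (W : Set V))) (A' : Finset E') (A : Finset E)
    (h : ∀ u v : V, (∃ e ∈ A', ends' e = (Quot.mk _ u, Quot.mk _ v)) ↔
      ∃ e ∈ A, (Quot.mk _ (ends e).1 : Contr (insert s (W : Set V))) = Quot.mk _ u ∧
        (Quot.mk _ (ends e).2 : Contr (insert s (W : Set V))) = Quot.mk _ v) :
    comps ends' A' = Nbhd.kk ends s A W := by
  unfold Nbhd.kk
  rw [comps_eq, Comp.comps_eq (Comp.labels_self ends' A')]
  have hmk : ∀ u v : V, (Quot.mk _ u : Contr (insert s (W : Set V))) = Quot.mk _ v →
      (Comp.under (Nbhd.ext ends s) (A.disjSum W)).Reachable u v := by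
    have hs : ∀ v ∈ (insert s (W : Set V)),
        (Comp.under (Nbhd.ext ends s) (A.disjSum W)).Reachable s v := by
      intro v hv
      by_cases hvs : s = v
      · rw [hvs]
      · apply SimpleGraph.Adj.reachable
        rw [Nbhd.ext_adj]
        refine ⟨hvs, Or.inr (Or.inl ⟨rfl, ?_⟩)⟩
        rcases hv with h1 | h1
        · exact absurd h1.symm hvs
        · exact h1
    intro u v huv
    rw [mk_eq_iff] at huv
    rcases huv with rfl | ⟨h1, h2⟩
    · exact SimpleGraph.Reachable.refl _
    · exact (hs _ h1).symm.trans (hs _ h2)
  have hL : Comp.Labels (Nbhd.ext ends s) (A.disjSum W)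
      (fun v => (Comp.under ends' A').connectedComponentMk (Quot.mk _ v)) := by
    intro u v
    refine Iff.trans SimpleGraph.ConnectedComponent.eq ?_
    constructor
    · rintro ⟨p⟩
      have key : ∀ x y, (Comp.under ends' A').Walk x y → ∀ u v : V, Quot.mk _ u = x →
          Quot.mk _ v = y →
          (Comp.under (Nbhd.ext ends s) (A.disjSum W)).Reachable u v := by
        intro x y p
        induction p with
        | nil => intro u v hu hv; exact hmk u v (hu.trans hv.symm)
        | @cons x z y hadj _ ih =>
          intro u v hu hv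
          obtain ⟨w, rfl⟩ := Quot.exists_rep z
          subst hu
          refine SimpleGraph.Reachable.trans ?_ (ih w v rfl hv)
          rw [Comp.under_adj] at hadj
          obtain ⟨hne, e', he', h1⟩ := hadj
          have hadj2 : ∀ e ∈ A, (Comp.under (Nbhd.ext ends s) (A.disjSum W)).Reachable
              (ends e).1 (ends e).2 := by
            intro e he
            by_cases h3 : (ends e).1 = (ends e).2
            · rw [h3]
            · apply SimpleGraph.Adj.reachable
              rw [Nbhd.ext_adj]
              exact ⟨h3, Or.inl ⟨e, he, Or.inl rfl⟩⟩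
          rcases h1 with h1 | h1
          · obtain ⟨e, he, h2, h3⟩ := (h u w).mp ⟨e', he', h1⟩
            exact ((hmk _ _ h2).symm.trans (hadj2 e he)).trans (hmk _ _ h3)
          · obtain ⟨e, he, h2, h3⟩ := (h w u).mp ⟨e', he', h1⟩
            exact ((hmk _ _ h3).symm.trans (hadj2 e he).symm).trans (hmk _ _ h2)
      exact key _ _ p u v rfl rfl
    · rintro ⟨p⟩
      induction p with
      | nil => exact SimpleGraph.Reachable.refl _
      | @cons u w v hadj _ ih =>
        refine SimpleGraph.Reachable.trans ?_ ih
        by_cases heq : (Quot.mk _ u : Contr (insert s (W : Set V))) = Quot.mk _ w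
        · rw [heq]
        · apply SimpleGraph.Adj.reachable
          rw [Comp.under_adj]
          refine ⟨heq, ?_⟩
          rw [Nbhd.ext_adj] at hadj
          obtain ⟨_, ⟨e, he, h1 | h1⟩ | ⟨h1, h2⟩ | ⟨h1, h2⟩⟩ := hadj
          · obtain ⟨e', he', h3⟩ := (h u w).mpr ⟨e, he, by rw [h1], by rw [h1]⟩
            exact ⟨e', he', Or.inl h3⟩
          · obtain ⟨e', he', h3⟩ := (h w u).mpr ⟨e, he, by rw [h1], by rw [h1]⟩
            exact ⟨e', he', Or.inr h3⟩
          · exfalso
            apply heq
            rw [mk_eq_iff]
            exact Or.inr ⟨by rw [h1]; exact Set.mem_insert _ _, Set.mem_insert_of_mem _ h2⟩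
          · exfalso
            apply heq
            rw [mk_eq_iff]
            exact Or.inr ⟨Set.mem_insert_of_mem _ h2, by rw [h1]; exact Set.mem_insert _ _⟩
  rw [Comp.comps_eq hL]
  congr 2
  ext c
  simp only [Set.mem_range]
  constructor
  · rintro ⟨x, rfl⟩
    obtain ⟨w, rfl⟩ := Quot.exists_rep x
    exact ⟨w, rfl⟩
  · rintro ⟨w, rfl⟩
    exact ⟨_, rfl⟩

theorem comps_empty (ends : E → V × V) : comps ends ∅ = Nat.card V := by
  have h : Comp.Labels ends ∅ (id : V → V) := by
    intro u v
    constructor
    · intro h
      have h' : u = v := h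
      rw [h']
    · rintro ⟨p⟩
      cases p with
      | nil => rfl
      | cons hadj _ =>
        rw [Comp.under_adj] at hadj
        obtain ⟨_, _, h, _⟩ := hadj
        exact absurd h (notMem_empty _)
  rw [comps_eq, Comp.comps_eq h]
  simp

theorem kk_univ [Finite V] [DecidableEq V] [DecidableEq E] [Fintype E] {ends : E → V × V}
    (hconn : (under ends univ).Connected) (s : V) (F : Finset E) (U : Finset V)
    (hF : ∀ e, e ∉ F → ((ends e).1 = (ends e).2 ∨
      ((ends e).1 ∈ insert s U ∧ (ends e).2 ∈ insert s U))) :
    Nbhd.kk ends s F U = 1 := by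
  -- adding loops does not change the number of components
  have h1 : ∀ L : Finset E, (∀ e ∈ L, ((ends e).1 = (ends e).2 ∨
      ((ends e).1 ∈ insert s U ∧ (ends e).2 ∈ insert s U))) →
      Nbhd.kk ends s (F ∪ L) U = Nbhd.kk ends s F U := by
    intro L
    induction L using Finset.induction_on with
    | empty => intro _; simp
    | insert e L he ih =>
      intro hL
      rw [union_insert, Nbhd.kk_loop (hL e (mem_insert_self _ _)),
        ih (fun e he => hL e (mem_insert_of_mem he))]
  have h2 := h1 (univ \ F) (fun e he => hF e (mem_sdiff.mp he).2)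
  rw [union_sdiff_of_subset (subset_univ F)] at h2
  rw [← h2]
  unfold Nbhd.kk Comp.comps
  have h3 : (Comp.under (Nbhd.ext ends s) ((univ : Finset E).disjSum U)).Connected := by
    refine hconn.mono ?_
    intro u v huv
    rw [under_eq, Comp.under_adj] at huv
    rw [Nbhd.ext_adj]
    exact ⟨huv.1, Or.inl huv.2⟩
  rw [Nat.card_eq_one_iff_unique]
  have h4 := h3.preconnected
  exact ⟨h4.subsingleton_connectedComponent, h3.nonempty.map fun v =>
    SimpleGraph.connectedComponentMk _ v⟩

theorem tutte_eq_TT {R : Type} [CommRing R] [Finite V] [DecidableEq V] [DecidableEq E] [Fintype E]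
    {ends : E → V × V} (hconn : (under ends univ).Connected) (s : V) :
    tutte R ends = Nbhd.TT R ends s univ ∅ := by
  have hk : ∀ A : Finset E, comps ends A = Nbhd.kk ends s A ∅ := by
    intro A
    unfold Nbhd.kk
    rw [comps_eq]
    apply Comp.comps_congr
    have : Comp.under ends A = Comp.under (Nbhd.ext ends s) (A.disjSum ∅) := by
      ext u v
      rw [Comp.under_adj, Nbhd.ext_adj]
      simp
    intro u v
    rw [this]
  have hn : Nat.card V = Nbhd.kk ends s ∅ ∅ := by rw [← hk, comps_empty]
  have h1 : comps ends univ = 1 := by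
    rw [hk]
    exact kk_univ hconn s univ ∅ (fun e he => absurd (mem_univ e) he)
  unfold tutte Nbhd.TT
  rw [powerset_univ]
  refine sum_congr rfl fun A _ => ?_
  unfold rank
  rw [h1, hk, hn]
  have h2 := Nbhd.kk_le ends s A ∅
  have h3 := Nbhd.kk_pos ends s A ∅
  have h4 : Nbhd.kk ends s ∅ ∅ - 1 - (Nbhd.kk ends s ∅ ∅ - Nbhd.kk ends s A ∅) =
    Nbhd.kk ends s A ∅ - 1 := by omega
  rw [h4]

open Classical in
theorem tutte_GW {R : Type} [CommRing R] [Finite V] [Fintype E]
    {ends : E → V × V} (hconn : (under ends univ).Connected) (s : V) (W : Finset V) :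
    tutte R (GW ends s (W : Set V)) = Nbhd.TT R ends s (Nbhd.nl ends s univ W) W := by
  have hloop : ∀ e : E, e ∈ Nbhd.nl ends s univ W ↔
      (contractVerts ends (insert s (W : Set V)) e).1 ≠
        (contractVerts ends (insert s (W : Set V)) e).2 := by
    intro e
    unfold Nbhd.nl contractVerts
    rw [mem_filter]
    simp only [mem_univ, true_and, ne_eq]
    rw [mk_eq_iff]
    simp only [mem_insert, Set.mem_insert_iff, mem_coe]
  have hk : ∀ A' : Finset {e : E // (contractVerts ends (insert s (W : Set V)) e).1 ≠
      (contractVerts ends (insert s (W : Set V)) e).2},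
      comps (GW ends s (W : Set V)) A' =
        Nbhd.kk ends s (A'.map (Function.Embedding.subtype _)) W := by
    intro A'
    apply comps_contr
    intro u v
    constructor
    · rintro ⟨⟨e, he⟩, heA, h⟩
      refine ⟨e, mem_map.mpr ⟨⟨e, he⟩, heA, rfl⟩, ?_⟩
      unfold GW deleteLoops contractVerts at h
      rw [Prod.mk.injEq] at h
      exact h
    · rintro ⟨e, he, h1, h2⟩
      obtain ⟨e', he', rfl⟩ := mem_map.mp he
      refine ⟨e', he', ?_⟩
      unfold GW deleteLoops contractVerts
      rw [Prod.mk.injEq]
      exact ⟨h1, h2⟩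
  have hn : Nat.card (Contr (insert s (W : Set V))) = Nbhd.kk ends s ∅ W := by
    rw [← comps_empty (GW ends s (W : Set V)), hk, map_empty]
  have huniv : (univ : Finset {e : E // (contractVerts ends (insert s (W : Set V)) e).1 ≠
      (contractVerts ends (insert s (W : Set V)) e).2}).map (Function.Embedding.subtype _) =
      Nbhd.nl ends s univ W := by
    ext e
    rw [hloop, mem_map]
    constructor
    · rintro ⟨⟨e', he'⟩, _, rfl⟩
      exact he'
    · intro h
      exact ⟨⟨e, h⟩, mem_univ _, rfl⟩
  have h1 : comps (GW ends s (W : Set V)) univ = 1 := by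
    rw [hk, huniv]
    apply kk_univ hconn
    intro e he
    unfold Nbhd.nl at he
    rw [mem_filter] at he
    simp only [mem_univ, true_and, not_not] at he
    exact he
  unfold tutte Nbhd.TT
  refine sum_bij (fun A' _ => A'.map (Function.Embedding.subtype _)) ?_ ?_ ?_ ?_
  · intro A' _
    rw [mem_powerset, ← huniv]
    exact map_subset_map.mpr (subset_univ _)
  · intro A _ B _ h
    exact map_injective _ h
  · intro A hA
    rw [mem_powerset] at hA
    refine ⟨A.subtype _, mem_univ _, ?_⟩
    rw [subtype_map]
    ext e
    rw [mem_filter]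
    exact ⟨fun h => h.1, fun h => ⟨h, (hloop e).mp (hA h)⟩⟩
  · intro A' _
    unfold rank
    rw [h1, hk, hn, card_map]
    have h2 := Nbhd.kk_le ends s (A'.map (Function.Embedding.subtype _)) W
    have h3 := Nbhd.kk_pos ends s (A'.map (Function.Embedding.subtype _)) W
    have h4 : Nbhd.kk ends s ∅ W - 1 - (Nbhd.kk ends s ∅ W -
        Nbhd.kk ends s (A'.map (Function.Embedding.subtype _)) W) =
      Nbhd.kk ends s (A'.map (Function.Embedding.subtype _)) W - 1 := by omega
    rw [h4]

open Classical in
/-- Let `G` be a finite connected multigraph with at least two vertices and let `s` be a vertex.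
For every commutative ring `R` the Tutte polynomial of `G` is in the ideal of `R[x, y]` generated by
the Tutte polynomials of the graphs `G_W`, for the nonempty sets `W` of neighbours of `s`. -/
theorem result (R : Type) [CommRing R] (V E : Type) [Finite V] [Fintype E] (ends : E → V × V)
    (hconn : (under ends univ).Connected) (htwo : 2 ≤ Nat.card V) (s : V) :
    tutte R ends ∈ Ideal.span {p : MvPolynomial (Fin 2) R |
      ∃ W : Set V, W.Nonempty ∧ W ⊆ nbrs ends s ∧ p = tutte R (GW ends s W)} := by
  have := Fintype.ofFinite V
  rw [tutte_eq_TT hconn s]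
  apply Nbhd.main (univ.filter fun v => v ∈ nbrs ends s)
  · intro a
    rw [mem_filter]
    simp only [mem_univ, true_and]
    rfl
  · -- `s` has a neighbour
    have h1 : Nontrivial V := by
      rw [← Finite.one_lt_card_iff_nontrivial]
      omega
    obtain ⟨w, hw⟩ := exists_ne s
    obtain ⟨p⟩ := hconn.preconnected s w
    cases p with
    | nil => exact absurd rfl hw
    | @cons _ a _ hadj _ =>
      rw [under_eq, Comp.under_adj] at hadj
      obtain ⟨hne, e, _, he⟩ := hadj
      exact ⟨a, mem_filter.mpr ⟨mem_univ _, hne.symm, e, he⟩⟩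
  · intro W hW hne
    apply Ideal.subset_span
    refine ⟨(W : Set V), by simpa using hne, ?_, (tutte_GW hconn s W).symm⟩
    intro a ha
    exact (mem_filter.mp (hW ha)).2

end Pool.Agent.Results.MP_8e541a_co.IdealMembership
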